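import Mathlib
import Pool.Agent.Convex97.ThreeDim
import Pool.Agent.Convex97.Gadgets

set_option autoImplicit false

namespace Pool.Agent.Results.MP_688354_co.FacetRepresentation

open Module Finset Pool.Agent.Convex97

/-- `P` is a centrally symmetric convex polytope in `ℝ^d` with nonempty interior: the convex hull
of finitely many points, with an interior point, and symmetric about some point `c`. -/
def IsCSPolytope {d : ℕ} (P : Set (EuclideanSpace ℝ (Fin d))) : Prop :=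
  (∃ V : Finset (EuclideanSpace ℝ (Fin d)),
    P = convexHull ℝ (V : Set (EuclideanSpace ℝ (Fin d)))) ∧
  (interior P).Nonempty ∧ ∃ c, ∀ x ∈ P, (2 : ℝ) • c - x ∈ P

/-- `F` is a facet of `P`: a (nonempty, exposed) face of dimension `d - 1`. -/
def IsFacet {d : ℕ} (P F : Set (EuclideanSpace ℝ (Fin d))) : Prop :=
  F.Nonempty ∧ IsExposed ℝ P F ∧ finrank ℝ (vectorSpan ℝ F) + 1 = d

/-- `|P|`: the number of facets of `P`. -/
noncomputable def numFacets {d : ℕ} (P : Set (EuclideanSpace ℝ (Fin d))) : ℕ :=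
  {F | IsFacet P F}.ncard

/-- The finite set `K` consists of boundary points of `P` and represents (meets) all facets. -/
def Represents {d : ℕ} (K : Finset (EuclideanSpace ℝ (Fin d)))
    (P : Set (EuclideanSpace ℝ (Fin d))) : Prop :=
  (∀ x ∈ K, x ∈ frontier P) ∧ ∀ F, IsFacet P F → ∃ x ∈ K, x ∈ F

/-- The least number of boundary points of `P` needed to represent all facets of `P`. -/
noncomputable def repNumber {d : ℕ} (P : Set (EuclideanSpace ℝ (Fin d))) : ℕ :=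
  sInf {n | ∃ K : Finset (EuclideanSpace ℝ (Fin d)), Represents K P ∧ K.card = n}

/-- The set of all quotients `min |K| / |P|`, over the centrally symmetric polytopes `P` in
`ℝ^d`. Its supremum is `L_d`. -/
def quotients (d : ℕ) : Set ℝ :=
  {r | ∃ P : Set (EuclideanSpace ℝ (Fin d)), IsCSPolytope P ∧
    r = (repNumber P : ℝ) / (numFacets P : ℝ)}

section general

variable {d : ℕ}

lemma isFacet_iff (P F : Set (EuclideanSpace ℝ (Fin d))) : IsFacet P F ↔ IsFacetOf P F := by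
  unfold IsFacet IsFacetOf
  rw [finrank_euclideanSpace_fin]

variable {ι : Type} [Fintype ι]

lemma facets_subset (f : ι → EuclideanSpace ℝ (Fin d) →ₗ[ℝ] ℝ) (b : ι → ℝ) (hf : ∀ i, f i ≠ 0)
    (o : EuclideanSpace ℝ (Fin d)) (ho : ∀ i, f i o < b i) :
    {F | IsFacet (hp f b) F} ⊆ Set.range (fc f b) := by
  intro F hF
  obtain ⟨i, hi⟩ := facet_eq_fc f b hf o ho F ((isFacet_iff _ _).mp hF)
  exact ⟨i, hi.symm⟩

lemma numFacets_le (f : ι → EuclideanSpace ℝ (Fin d) →ₗ[ℝ] ℝ) (b : ι → ℝ) (hf : ∀ i, f i ≠ 0)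
    (o : EuclideanSpace ℝ (Fin d)) (ho : ∀ i, f i o < b i) :
    numFacets (hp f b) ≤ Fintype.card ι := by
  unfold numFacets
  calc _ ≤ (Set.range (fc f b)).ncard :=
        Set.ncard_le_ncard (facets_subset f b hf o ho) (Set.finite_range _)
    _ = (fc f b '' Set.univ).ncard := by rw [Set.image_univ]
    _ ≤ (Set.univ : Set ι).ncard := Set.ncard_image_le (Set.finite_univ)
    _ = Fintype.card ι := by rw [Set.ncard_univ, Nat.card_eq_fintype_card]

lemma numFacets_eq (f : ι → EuclideanSpace ℝ (Fin d) →ₗ[ℝ] ℝ) (b : ι → ℝ) (hf : ∀ i, f i ≠ 0)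
    (o : EuclideanSpace ℝ (Fin d)) (ho : ∀ i, f i o < b i)
    (hirr : ∀ i, ∃ z, f i z = b i ∧ ∀ j, j ≠ i → f j z < b j) :
    numFacets (hp f b) = Fintype.card ι := by
  have h1 : {F | IsFacet (hp f b) F} = fc f b '' Set.univ := by
    rw [Set.image_univ]
    apply Set.Subset.antisymm (facets_subset f b hf o ho)
    rintro _ ⟨i, rfl⟩
    obtain ⟨z, hz, hz'⟩ := hirr i
    exact (isFacet_iff _ _).mpr (isFacet_fc f b i (hf i) z hz hz')
  have hinj : Function.Injective (fc f b) := by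
    intro i j hij
    by_contra hne
    obtain ⟨z, hz, hz'⟩ := hirr i
    have hzi : z ∈ fc f b i := by
      refine ⟨?_, hz⟩
      intro k
      by_cases hk : k = i
      · rw [hk, hz]
      · exact (hz' k hk).le
    rw [hij] at hzi
    exact absurd hzi.2 (hz' j (fun h => hne h.symm)).ne
  unfold numFacets
  rw [h1, Set.ncard_image_of_injective _ hinj, Set.ncard_univ, Nat.card_eq_fintype_card]

lemma repNumber_le (K : Finset (EuclideanSpace ℝ (Fin d))) (P : Set (EuclideanSpace ℝ (Fin d)))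
    (hK : Represents K P) : repNumber P ≤ K.card := Nat.sInf_le ⟨K, hK, rfl⟩

lemma repNumber_attained (P : Set (EuclideanSpace ℝ (Fin d)))
    (h : ∃ K : Finset (EuclideanSpace ℝ (Fin d)), Represents K P) :
    ∃ K : Finset (EuclideanSpace ℝ (Fin d)), Represents K P ∧ K.card = repNumber P := by
  obtain ⟨K, hK⟩ := h
  exact Nat.sInf_mem (s := {n | ∃ K : Finset (EuclideanSpace ℝ (Fin d)),
    Represents K P ∧ K.card = n}) ⟨K.card, K, hK, rfl⟩

/-- One point per facet. -/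
lemma exists_represents (f : ι → EuclideanSpace ℝ (Fin d) →ₗ[ℝ] ℝ) (b : ι → ℝ)
    (hf : ∀ i, f i ≠ 0) (o : EuclideanSpace ℝ (Fin d)) (ho : ∀ i, f i o < b i) :
    ∃ K : Finset (EuclideanSpace ℝ (Fin d)), Represents K (hp f b) ∧
      K.card ≤ numFacets (hp f b) := by
  classical
  have hfin : {F | IsFacet (hp f b) F}.Finite :=
    (Set.finite_range _).subset (facets_subset f b hf o ho)
  choose! p hpF using fun (F : Set (EuclideanSpace ℝ (Fin d))) (hF : IsFacet (hp f b) F) => hF.1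
  refine ⟨hfin.toFinset.image p, ⟨?_, ?_⟩, ?_⟩
  · intro x hx
    obtain ⟨F, hF, rfl⟩ := Finset.mem_image.mp hx
    rw [Set.Finite.mem_toFinset] at hF
    obtain ⟨i, hi⟩ := facet_eq_fc f b hf o ho F ((isFacet_iff _ _).mp hF)
    have := hpF F hF
    rw [hi] at this
    rw [hi]
    exact fc_subset_frontier f b i (hf i) this
  · intro F hF
    exact ⟨p F, Finset.mem_image_of_mem _ (by rw [Set.Finite.mem_toFinset]; exact hF), hpF F hF⟩
  · refine Finset.card_image_le.trans ?_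
    unfold numFacets
    rw [Set.ncard_eq_toFinset_card _ hfin]

lemma quotient_le_one (r : ℝ) (hr : r ∈ quotients d) : r ≤ 1 := by
  obtain ⟨P, ⟨⟨V, rfl⟩, ⟨o, ho⟩, -⟩, rfl⟩ := hr
  obtain ⟨ι, _, f, b, hP, hf, hob, -⟩ := exists_irredundant V o ho
  rw [hP]
  obtain ⟨K, hK, hKcard⟩ := exists_represents f b hf o hob
  apply div_le_one_of_le₀ _ (by positivity)
  exact_mod_cast (repNumber_le K _ hK).trans hKcard

end general

lemma quotient_le_three (r : ℝ) (hr : r ∈ quotients 3) : r ≤ 2/3 := by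
  obtain ⟨P, ⟨⟨V, rfl⟩, ⟨o, ho⟩, -⟩, rfl⟩ := hr
  obtain ⟨ι, _, f, b, hP, hf, hob, hirr⟩ := exists_irredundant V o ho
  have hbdd : Bornology.IsBounded (hp f b) := by
    rw [← hP]
    exact (V.finite_toSet.isCompact_convexHull ℝ).isBounded
  rw [hP]
  obtain ⟨K, hK1, hK2, hK3⟩ := three_dim_transversal (finrank_euclideanSpace_fin) f b hbdd hf hirr
  have hrep : Represents K (hp f b) := by
    refine ⟨hK1, ?_⟩
    intro F hF
    obtain ⟨i, hi⟩ := facet_eq_fc f b hf o hob F ((isFacet_iff _ _).mp hF)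
    rw [hi]
    exact hK2 i
  have h1 := repNumber_le K _ hrep
  rw [← numFacets_eq f b hf o hob hirr] at hK3
  have h2 : 3 * repNumber (hp f b) ≤ 2 * numFacets (hp f b) := by omega
  have h3 : (3 : ℝ) * repNumber (hp f b) ≤ 2 * numFacets (hp f b) := by exact_mod_cast h2
  rcases Nat.eq_zero_or_pos (numFacets (hp f b)) with h0 | h0
  · rw [h0]; norm_num
  · have h4 : (0 : ℝ) < numFacets (hp f b) := by exact_mod_cast h0
    rw [div_le_iff₀ h4]
    linarith

/-- Lower bound: `T` many pairwise disjoint facets among at most `card ι`. -/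
lemma exists_quotient_ge {d : ℕ} {ι : Type} [Fintype ι] (f : ι → EuclideanSpace ℝ (Fin d) →ₗ[ℝ] ℝ)
    (b : ι → ℝ) (hf : ∀ i, f i ≠ 0) (hb : ∀ i, 0 < b i) (hbdd : Bornology.IsBounded (hp f b))
    (hsymm : ∀ x ∈ hp f b, -x ∈ hp f b) (T : Finset ι) (hT : T.Nonempty)
    (hirr : ∀ i ∈ T, ∃ z, f i z = b i ∧ ∀ j, j ≠ i → f j z < b j)
    (hdisj : ∀ i ∈ T, ∀ j ∈ T, ∀ x, x ∈ fc f b i → x ∈ fc f b j → i = j) :
    ∃ r ∈ quotients d, (T.card : ℝ) / (Fintype.card ι : ℝ) ≤ r := by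
  classical
  have ho : ∀ i, f i 0 < b i := fun i => by rw [map_zero]; exact hb i
  obtain ⟨V, hV⟩ := exists_finset_hull f b hbdd
  have hint : (0 : EuclideanSpace ℝ (Fin d)) ∈ interior (hp f b) := by
    have hopen : IsOpen {x | ∀ i, f i x < b i} := by
      have : {x | ∀ i, f i x < b i} = ⋂ i, {x | f i x < b i} := by ext x; simp
      rw [this]
      exact isOpen_iInter_of_finite (fun i => isOpen_lt (cont (f i)) continuous_const)
    have hsub : {x | ∀ i, f i x < b i} ⊆ hp f b := fun x hx i => (hx i).le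
    exact interior_maximal hsub hopen ho
  refine ⟨_, ⟨hp f b, ⟨⟨V, hV⟩, ⟨0, hint⟩, 0, ?_⟩, rfl⟩, ?_⟩
  · intro x hx
    rw [smul_zero, zero_sub]
    exact hsymm x hx
  · obtain ⟨K0, hK0, -⟩ := exists_represents f b hf 0 ho
    obtain ⟨K, hK, hKcard⟩ := repNumber_attained (hp f b) ⟨K0, hK0⟩
    have hfacet : ∀ i ∈ T, IsFacet (hp f b) (fc f b i) := by
      intro i hi
      obtain ⟨z, hz, hz'⟩ := hirr i hi
      exact (isFacet_iff _ _).mpr (isFacet_fc f b i (hf i) z hz hz')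
    have hTK : T.card ≤ K.card := by
      have hex : ∀ i ∈ T, ∃ x ∈ K, x ∈ fc f b i := fun i hi => hK.2 _ (hfacet i hi)
      choose! x hxK hxf using hex
      apply Finset.card_le_card_of_injOn x (fun i hi => hxK i hi)
      intro i hi j hj hij
      exact hdisj i hi j hj (x i) (hxf i hi) (by rw [hij]; exact hxf j hj)
    have hle := numFacets_le f b hf 0 ho
    obtain ⟨i0, hi0⟩ := hT
    have hpos : 0 < numFacets (hp f b) := by
      unfold numFacets
      rw [Set.ncard_pos ((Set.finite_range _).subset (facets_subset f b hf 0 ho))]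
      exact ⟨_, hfacet i0 hi0⟩
    rw [← hKcard]
    have h1 : (T.card : ℝ) ≤ (K.card : ℝ) := by exact_mod_cast hTK
    have h2 : (numFacets (hp f b) : ℝ) ≤ Fintype.card ι := by exact_mod_cast hle
    have h3 : (0 : ℝ) < numFacets (hp f b) := by exact_mod_cast hpos
    calc (T.card : ℝ) / (Fintype.card ι : ℝ) ≤ (T.card : ℝ) / (numFacets (hp f b) : ℝ) :=
          div_le_div_of_nonneg_left (by positivity) h3 h2
      _ ≤ (K.card : ℝ) / (numFacets (hp f b) : ℝ) := div_le_div_of_nonneg_right h1 h3.le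

/-! ### Combination of two gadgets -/

section combine

variable {d : ℕ} {I1 I2 I0 W1 W2 : Type} [Fintype I1] [Fintype I2] [Fintype I0] [Fintype W1]
  [Fintype W2] [Nonempty W1] [Nonempty W2]

/-- Combining two cutting gadgets and some further constraints. -/
lemma combine
    (f1 : I1 → EuclideanSpace ℝ (Fin d) →ₗ[ℝ] ℝ) (b1 : I1 → ℝ)
    (f2 : I2 → EuclideanSpace ℝ (Fin d) →ₗ[ℝ] ℝ) (b2 : I2 → ℝ)
    (f0 : I0 → EuclideanSpace ℝ (Fin d) →ₗ[ℝ] ℝ) (b0 : I0 → ℝ)
    (g1 : W1 → EuclideanSpace ℝ (Fin d) →ₗ[ℝ] ℝ) (m1 : W1 → ℝ)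
    (g2 : W2 → EuclideanSpace ℝ (Fin d) →ₗ[ℝ] ℝ) (m2 : W2 → ℝ)
    (hf1 : ∀ i, f1 i ≠ 0) (hf2 : ∀ i, f2 i ≠ 0) (hf0 : ∀ i, f0 i ≠ 0)
    (hb1 : ∀ i, 0 < b1 i) (hb2 : ∀ i, 0 < b2 i) (hb0 : ∀ i, 0 < b0 i)
    (hm1 : ∀ w, 1 ≤ m1 w) (hm2 : ∀ w, 1 ≤ m2 w)
    (hs1 : ∀ i, ∃ i', f1 i' = - f1 i ∧ b1 i' = b1 i)
    (hs2 : ∀ i, ∃ i', f2 i' = - f2 i ∧ b2 i' = b2 i)
    (hs0 : ∀ i, ∃ i', f0 i' = - f0 i ∧ b0 i' = b0 i)
    (ht1 : ∀ w, ∃ w', g1 w' = - g1 w ∧ m1 w' = m1 w)
    (ht2 : ∀ w, ∃ w', g2 w' = - g2 w ∧ m2 w' = m2 w)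
    (hbdd : Bornology.IsBounded {x | (∀ i, f1 i x ≤ b1 i) ∧ (∀ i, f2 i x ≤ b2 i) ∧
      (∀ i, f0 i x ≤ b0 i)})
    (hle1 : ∀ x, (∀ i, f1 i x ≤ b1 i) → ∀ w, g1 w x ≤ m1 w)
    (hle2 : ∀ x, (∀ i, f2 i x ≤ b2 i) → ∀ w, g2 w x ≤ m2 w)
    (hsep1 : ∀ x, (∀ i, f1 i x ≤ b1 i) → ∀ w w', m1 w - 1/4 ≤ g1 w x → m1 w' - 1/4 ≤ g1 w' x →
      w = w')
    (hsep2 : ∀ x, (∀ i, f2 i x ≤ b2 i) → ∀ w w', m2 w - 1/4 ≤ g2 w x → m2 w' - 1/4 ≤ g2 w' x →
      w = w')
    (hpt : ∀ w1 w2, ∃ z, (∀ i, f1 i z < b1 i) ∧ (∀ i, f2 i z < b2 i) ∧ (∀ i, f0 i z < b0 i) ∧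
      g1 w1 z = m1 w1 - 1/8 ∧ g2 w2 z = m2 w2 - 1/8 ∧
      (∀ w, w ≠ w1 → g1 w z < m1 w - 1/8) ∧ (∀ w, w ≠ w2 → g2 w z < m2 w - 1/8)) :
    ∃ r ∈ quotients d, ((Fintype.card W1 * Fintype.card W2 : ℕ) : ℝ) /
      ((Fintype.card I1 + Fintype.card I2 + Fintype.card I0 +
        Fintype.card W1 * Fintype.card W2 : ℕ) : ℝ) ≤ r := by
  classical
  let f : (I1 ⊕ I2) ⊕ (I0 ⊕ (W1 × W2)) → EuclideanSpace ℝ (Fin d) →ₗ[ℝ] ℝ := fun i =>
    match i with
    | Sum.inl (Sum.inl i) => f1 i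
    | Sum.inl (Sum.inr i) => f2 i
    | Sum.inr (Sum.inl i) => f0 i
    | Sum.inr (Sum.inr w) => g1 w.1 + g2 w.2
  let b : (I1 ⊕ I2) ⊕ (I0 ⊕ (W1 × W2)) → ℝ := fun i =>
    match i with
    | Sum.inl (Sum.inl i) => b1 i
    | Sum.inl (Sum.inr i) => b2 i
    | Sum.inr (Sum.inl i) => b0 i
    | Sum.inr (Sum.inr w) => m1 w.1 + m2 w.2 - 1/4
  have hall : ∀ x, x ∈ hp f b ↔ (∀ i, f1 i x ≤ b1 i) ∧ (∀ i, f2 i x ≤ b2 i) ∧
      (∀ i, f0 i x ≤ b0 i) ∧ ∀ w : W1 × W2, g1 w.1 x + g2 w.2 x ≤ m1 w.1 + m2 w.2 - 1/4 := by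
    intro x
    constructor
    · intro h
      exact ⟨fun i => h (Sum.inl (Sum.inl i)), fun i => h (Sum.inl (Sum.inr i)),
        fun i => h (Sum.inr (Sum.inl i)), fun w => h (Sum.inr (Sum.inr w))⟩
    · rintro ⟨h1, h2, h3, h4⟩ ((i | i) | (i | w))
      · exact h1 i
      · exact h2 i
      · exact h3 i
      · exact h4 w
  have hcard : Fintype.card ((I1 ⊕ I2) ⊕ (I0 ⊕ (W1 × W2))) =
      Fintype.card I1 + Fintype.card I2 + Fintype.card I0 +
        Fintype.card W1 * Fintype.card W2 := by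
    simp only [Fintype.card_sum, Fintype.card_prod]
    ring
  let T : Finset ((I1 ⊕ I2) ⊕ (I0 ⊕ (W1 × W2))) :=
    univ.image (fun w : W1 × W2 => Sum.inr (Sum.inr w))
  have hTcard : T.card = Fintype.card W1 * Fintype.card W2 := by
    rw [Finset.card_image_of_injective]
    · rw [Finset.card_univ, Fintype.card_prod]
    · intro a c h
      simpa using h
  have hres := exists_quotient_ge f b ?_ ?_ ?_ ?_ T ?_ ?_ ?_
  · rw [hcard, hTcard] at hres
    exact hres
  · rintro ((i | i) | (i | w))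
    · exact hf1 i
    · exact hf2 i
    · exact hf0 i
    · intro h0
      obtain ⟨z, -, -, -, hz1, hz2, -, -⟩ := hpt w.1 w.2
      have h1 : g1 w.1 z + g2 w.2 z = 0 :=
        congrArg (fun φ : EuclideanSpace ℝ (Fin d) →ₗ[ℝ] ℝ => φ z) h0
      have h2 := hm1 w.1
      have h3 := hm2 w.2
      linarith
  · rintro ((i | i) | (i | w))
    · exact hb1 i
    · exact hb2 i
    · exact hb0 i
    · have h2 := hm1 w.1
      have h3 := hm2 w.2
      change 0 < m1 w.1 + m2 w.2 - 1/4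
      linarith
  · apply hbdd.subset
    intro x hx
    obtain ⟨h1, h2, h3, -⟩ := (hall x).mp hx
    exact ⟨h1, h2, h3⟩
  · intro x hx
    obtain ⟨h1, h2, h3, h4⟩ := (hall x).mp hx
    rw [hall]
    refine ⟨fun i => ?_, fun i => ?_, fun i => ?_, fun w => ?_⟩
    · obtain ⟨i', hi', hb'⟩ := hs1 i
      have := h1 i'
      rw [hi', hb', LinearMap.neg_apply] at this
      rwa [map_neg]
    · obtain ⟨i', hi', hb'⟩ := hs2 i
      have := h2 i'
      rw [hi', hb', LinearMap.neg_apply] at this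
      rwa [map_neg]
    · obtain ⟨i', hi', hb'⟩ := hs0 i
      have := h3 i'
      rw [hi', hb', LinearMap.neg_apply] at this
      rwa [map_neg]
    · obtain ⟨w1', hw1, hw1'⟩ := ht1 w.1
      obtain ⟨w2', hw2, hw2'⟩ := ht2 w.2
      have := h4 (w1', w2')
      simp only at this
      rw [hw1, hw2, hw1', hw2', LinearMap.neg_apply, LinearMap.neg_apply] at this
      rwa [map_neg, map_neg]
  · exact Finset.univ_nonempty.image _
  · intro i hi
    obtain ⟨w, -, rfl⟩ := Finset.mem_image.mp hi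
    obtain ⟨z, hz1, hz2, hz0, hw1, hw2, ho1, ho2⟩ := hpt w.1 w.2
    refine ⟨z, ?_, ?_⟩
    · change g1 w.1 z + g2 w.2 z = m1 w.1 + m2 w.2 - 1/4
      rw [hw1, hw2]; ring
    · rintro ((j | j) | (j | w')) hj
      · exact hz1 j
      · exact hz2 j
      · exact hz0 j
      · change g1 w'.1 z + g2 w'.2 z < m1 w'.1 + m2 w'.2 - 1/4
        by_cases h1 : w'.1 = w.1
        · have h2 : w'.2 ≠ w.2 := by
            intro h2
            apply hj
            rw [Prod.ext h1 h2]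
          have h3 := ho2 w'.2 h2
          rw [h1, hw1]
          linarith
        · have h3 := ho1 w'.1 h1
          by_cases h2 : w'.2 = w.2
          · rw [h2, hw2]; linarith
          · have h4 := ho2 w'.2 h2
            linarith
  · intro i hi j hj x hxi hxj
    obtain ⟨w, -, rfl⟩ := Finset.mem_image.mp hi
    obtain ⟨w', -, rfl⟩ := Finset.mem_image.mp hj
    obtain ⟨h1, h2, h3, -⟩ := (hall x).mp hxi.1
    have e1 : g1 w.1 x + g2 w.2 x = m1 w.1 + m2 w.2 - 1/4 := hxi.2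
    have e2 : g1 w'.1 x + g2 w'.2 x = m1 w'.1 + m2 w'.2 - 1/4 := hxj.2
    have a1 := hle1 x h1 w.1
    have a2 := hle2 x h2 w.2
    have a1' := hle1 x h1 w'.1
    have a2' := hle2 x h2 w'.2
    have c1 := hsep1 x h1 w.1 w'.1 (by linarith) (by linarith)
    have c2 := hsep2 x h2 w.2 w'.2 (by linarith) (by linarith)
    rw [Prod.ext c1 c2]

end combine

section examples

variable {d : ℕ}

/-- coordinate functionals -/
noncomputable def co (i : Fin d) : EuclideanSpace ℝ (Fin d) →ₗ[ℝ] ℝ :=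
  (EuclideanSpace.proj i : EuclideanSpace ℝ (Fin d) →L[ℝ] ℝ).toLinearMap

lemma co_apply (i : Fin d) (x : EuclideanSpace ℝ (Fin d)) : co i x = x i := rfl

lemma bounded_of_coords (R : ℝ) (S : Set (EuclideanSpace ℝ (Fin d)))
    (hS : ∀ x ∈ S, ∀ i, |x i| ≤ R) : Bornology.IsBounded S := by
  rw [Metric.isBounded_iff_subset_closedBall 0]
  refine ⟨Real.sqrt (d * R ^ 2), ?_⟩
  intro x hx
  rw [mem_closedBall_zero_iff, EuclideanSpace.norm_eq]
  apply Real.sqrt_le_sqrt
  calc ∑ i, ‖x i‖ ^ 2 ≤ ∑ _i : Fin d, R ^ 2 := by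
        apply Finset.sum_le_sum
        intro i _
        have h := hS x hx i
        rw [Real.norm_eq_abs]
        exact pow_le_pow_left₀ (abs_nonneg _) h 2
    _ = d * R ^ 2 := by simp

/-- the point with first coordinates `a0, a1, a2, a3` and all others zero -/
noncomputable def pt (a0 a1 a2 a3 : ℝ) : EuclideanSpace ℝ (Fin d) :=
  WithLp.toLp 2 (fun i : Fin d => if i.val = 0 then a0 else if i.val = 1 then a1 else
    if i.val = 2 then a2 else if i.val = 3 then a3 else 0)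

lemma pt_apply (a0 a1 a2 a3 : ℝ) (i : Fin d) : (pt a0 a1 a2 a3 : EuclideanSpace ℝ (Fin d)) i =
    if i.val = 0 then a0 else if i.val = 1 then a1 else
    if i.val = 2 then a2 else if i.val = 3 then a3 else 0 := rfl

lemma pf_neg (n : ℕ) (X Y : EuclideanSpace ℝ (Fin d) →ₗ[ℝ] ℝ) (i : PI n) :
    ∃ i', pf n X Y i' = - pf n X Y i ∧ pb n i' = pb n i := by
  refine ⟨(i.1, !i.2), LinearMap.ext fun z => ?_, rfl⟩
  rw [LinearMap.neg_apply, pf_apply, pf_apply, sg_not]
  ring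

lemma pg_neg (n : ℕ) (X Y : EuclideanSpace ℝ (Fin d) →ₗ[ℝ] ℝ) (w : PW n) :
    ∃ w', pg n X Y w' = - pg n X Y w ∧ pm n w' = pm n w := by
  refine ⟨(w.1, !w.2), LinearMap.ext fun z => ?_, rfl⟩
  rw [LinearMap.neg_apply, pg_apply, pg_apply, sg_not]
  ring

lemma pf_ne_zero (n : ℕ) (X Y : EuclideanSpace ℝ (Fin d) →ₗ[ℝ] ℝ)
    (h : ∃ z, X z = 0 ∧ Y z = 1) (i : PI n) : pf n X Y i ≠ 0 := by
  obtain ⟨z, hX, hY⟩ := h
  intro h0
  have h1 : pf n X Y i z = 0 := by rw [h0]; rfl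
  rw [pf_apply, hX, hY] at h1
  have h2 := sg_sq i.2
  have h3 : sg i.2 = 0 := by linarith
  rw [h3] at h2
  norm_num at h2

/-- bounds on the coordinates in a polygon -/
lemma polygon_bound (n : ℕ) (X Y : EuclideanSpace ℝ (Fin d) →ₗ[ℝ] ℝ)
    (z : EuclideanSpace ℝ (Fin d)) (hz : ∀ i, pf n X Y i z ≤ pb n i) :
    |X z| ≤ ((n : ℝ) + 1) ^ 2 ∧ |Y z| ≤ ((n : ℝ) + 1) ^ 2 := by
  have h1 := hz (⟨n + 1, by omega⟩, true)
  have h2 := hz (⟨n + 1, by omega⟩, false)
  have h3 := hz (⟨n, by omega⟩, true)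
  have h4 := hz (⟨n, by omega⟩, false)
  rw [pf_apply] at h1 h2 h3 h4
  simp only [sg, pb, if_true, Bool.false_eq_true, if_false] at h1 h2 h3 h4
  push_cast at h1 h2 h3 h4
  have e1 : (2 * ((n : ℝ) + 1) - 2 * n - 1) = 1 := by ring
  have e2 : (2 * (n : ℝ) - 2 * n - 1) = -1 := by ring
  have e3 : ((n : ℝ) + 1 - n - 1) = 0 := by ring
  have e4 : ((n : ℝ) - n) = 0 := by ring
  rw [e1, e3] at h1 h2
  rw [e2, e4] at h3 h4
  constructor <;> rw [abs_le] <;> constructor <;> linarith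

/-- interval constraints -/
noncomputable def iv (i : Fin d) (s : Bool) : EuclideanSpace ℝ (Fin d) →ₗ[ℝ] ℝ := sg s • co i

lemma iv_apply (i : Fin d) (s : Bool) (x : EuclideanSpace ℝ (Fin d)) :
    iv i s x = sg s * x i := rfl

lemma iv_neg (i : Fin d) (s : Bool) : iv i (!s) = - iv i s := by
  apply LinearMap.ext
  intro z
  rw [LinearMap.neg_apply, iv_apply, iv_apply, sg_not]
  ring

lemma iv_ne_zero (i : Fin d) (s : Bool) : iv i s ≠ 0 := by
  intro h0
  have h1 : iv i s (EuclideanSpace.single i (1 : ℝ)) = 0 := by rw [h0]; rfl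
  rw [iv_apply] at h1
  have h2 := sg_sq s
  have h3 : sg s = 0 := by simpa using h1
  rw [h3] at h2
  norm_num at h2

lemma iv_bound (i : Fin d) (x : EuclideanSpace ℝ (Fin d)) (h : ∀ s, iv i s x ≤ 1) :
    |x i| ≤ 1 := by
  have h1 := h true
  have h2 := h false
  rw [iv_apply] at h1 h2
  simp only [sg, if_true, Bool.false_eq_true, if_false] at h1 h2
  rw [abs_le]
  constructor <;> linarith

lemma sg_abs (s : Bool) : |sg s| = 1 := by cases s <;> simp [sg]

/-- The three-dimensional examples: truncated prisms. -/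
lemma example_three (n : ℕ) :
    ∃ r ∈ quotients 3, (8 * (n : ℝ) + 4) / (12 * n + 10) ≤ r := by
  have hc := combine (d := 3) (I1 := PI n) (I2 := Bool) (I0 := Empty) (W1 := PW n) (W2 := Bool)
    (pf n (co 0) (co 1)) (pb n) (iv 2) (fun _ => 1) (fun e => e.elim) (fun e => e.elim)
    (pg n (co 0) (co 1)) (pm n) (iv 2) (fun _ => 1)
    (pf_ne_zero n _ _ ⟨pt 0 1 0 0, by simp [co_apply, pt_apply], by simp [co_apply, pt_apply]⟩)
    (iv_ne_zero 2) (fun e => e.elim) (pb_pos n) (fun _ => one_pos) (fun e => e.elim)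
    (pm_ge n) (fun _ => le_refl 1) (pf_neg n _ _) (fun s => ⟨!s, iv_neg 2 s, rfl⟩)
    (fun e => e.elim) (pg_neg n _ _) (fun s => ⟨!s, iv_neg 2 s, rfl⟩) ?_
    (fun x hx w => pg_le n _ _ x hx w) (fun x hx w => hx w)
    (fun x hx w w' h h' => pg_sep n _ _ x hx w w' h h') ?_ ?_
  · have h1 : (((Fintype.card (PW n) * Fintype.card Bool : ℕ) : ℝ) /
      ((Fintype.card (PI n) + Fintype.card Bool + Fintype.card Empty +
        Fintype.card (PW n) * Fintype.card Bool : ℕ) : ℝ)) = (8 * (n : ℝ) + 4) / (12 * n + 10) := by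
      simp only [Fintype.card_prod, Fintype.card_fin, Fintype.card_bool, Fintype.card_empty]
      push_cast
      congr 1 <;> ring
    rw [h1] at hc
    exact hc
  · apply bounded_of_coords (((n : ℝ) + 1) ^ 2)
    rintro x ⟨h1, h2, -⟩ i
    obtain ⟨b1, b2⟩ := polygon_bound n _ _ x h1
    have b3 := iv_bound 2 x h2
    have hn : (1 : ℝ) ≤ ((n : ℝ) + 1) ^ 2 := by
      have : (0 : ℝ) ≤ n := by positivity
      nlinarith
    fin_cases i
    · exact b1
    · exact b2
    · exact b3.trans hn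
  · intro x hx w w' h h'
    rw [iv_apply] at h h'
    rcases sg_cases w w' with ⟨h0, -⟩ | ⟨h0, -⟩
    · exact h0
    · exfalso
      cases w <;> cases w' <;> simp_all [sg] <;> linarith
  · intro w1 w2
    refine ⟨pt (sg w1.2 * (((w1.1 : ℕ) : ℝ) - n))
      (sg w1.2 * (((n : ℝ) + 1) ^ 2 - (((w1.1 : ℕ) : ℝ) - n) ^ 2 - 1/8)) (sg w2 * (7/8)) 0,
      ?_, ?_, ?_, ?_, ?_, ?_, ?_⟩
    · intro i
      exact pf_point n _ _ w1 _ (by simp [co_apply, pt_apply]) (by simp [co_apply, pt_apply]) i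
    · intro s
      rw [iv_apply, pt_apply]
      simp only [Fin.isValue, Fin.val_two, OfNat.ofNat_ne_zero, if_false, OfNat.ofNat_ne_one,
        if_true]
      rcases sg_cases s w2 with ⟨-, h⟩ | ⟨-, h⟩ <;> rw [← mul_assoc, h] <;> norm_num
    · exact fun e => e.elim
    · exact pg_point_self n _ _ w1 _ (by simp [co_apply, pt_apply]) (by simp [co_apply, pt_apply])
    · rw [iv_apply, pt_apply]
      simp only [Fin.isValue, Fin.val_two, OfNat.ofNat_ne_zero, if_false, OfNat.ofNat_ne_one,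
        if_true]
      rw [← mul_assoc, sg_sq]; norm_num
    · intro w hw
      exact pg_point_other n _ _ w1 w hw _ (by simp [co_apply, pt_apply])
        (by simp [co_apply, pt_apply])
    · intro s hs
      rw [iv_apply, pt_apply]
      simp only [Fin.isValue, Fin.val_two, OfNat.ofNat_ne_zero, if_false, OfNat.ofNat_ne_one,
        if_true]
      rcases sg_cases s w2 with ⟨h0, -⟩ | ⟨-, h⟩
      · exact absurd h0 hs
      · rw [← mul_assoc, h]; norm_num

/-- The higher-dimensional examples: products of two polygons and a cube, with the vertices of the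
product of the polygons cut off. -/
lemma example_four (hd : 4 ≤ d) (n : ℕ) :
    ∃ r ∈ quotients d, (4 * (2 * (n : ℝ) + 1) ^ 2) / (8 * n + 8 + 2 * d + 4 * (2 * n + 1) ^ 2) ≤ r := by
  let c0 : Fin d := ⟨0, by omega⟩
  let c1 : Fin d := ⟨1, by omega⟩
  let c2 : Fin d := ⟨2, by omega⟩
  let c3 : Fin d := ⟨3, by omega⟩
  have hc := combine (d := d) (I1 := PI n) (I2 := PI n) (I0 := {i : Fin d // 4 ≤ i.val} × Bool)
    (W1 := PW n) (W2 := PW n)
    (pf n (co c0) (co c1)) (pb n) (pf n (co c2) (co c3)) (pb n) (fun i => iv i.1.1 i.2) (fun _ => 1)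
    (pg n (co c0) (co c1)) (pm n) (pg n (co c2) (co c3)) (pm n)
    (pf_ne_zero n _ _ ⟨pt 0 1 0 0, by simp [co_apply, pt_apply, c0], by
      simp [co_apply, pt_apply, c1]⟩)
    (pf_ne_zero n _ _ ⟨pt 0 0 0 1, by simp [co_apply, pt_apply, c2], by
      simp [co_apply, pt_apply, c3]⟩)
    (fun i => iv_ne_zero _ _) (pb_pos n) (pb_pos n) (fun _ => one_pos)
    (pm_ge n) (pm_ge n) (pf_neg n _ _) (pf_neg n _ _)
    (fun i => ⟨(i.1, !i.2), iv_neg _ _, rfl⟩) (pg_neg n _ _) (pg_neg n _ _) ?_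
    (fun x hx w => pg_le n _ _ x hx w) (fun x hx w => pg_le n _ _ x hx w)
    (fun x hx w w' h h' => pg_sep n _ _ x hx w w' h h')
    (fun x hx w w' h h' => pg_sep n _ _ x hx w w' h h') ?_
  · obtain ⟨r, hr, hle⟩ := hc
    refine ⟨r, hr, le_trans ?_ hle⟩
    have hsub : Fintype.card {i : Fin d // 4 ≤ i.val} ≤ d := by
      have := Fintype.card_subtype_le (fun i : Fin d => 4 ≤ i.val)
      rwa [Fintype.card_fin] at this
    have hsub' : (Fintype.card {i : Fin d // 4 ≤ i.val} : ℝ) ≤ d := by exact_mod_cast hsub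
    have hnum : ((Fintype.card (PW n) * Fintype.card (PW n) : ℕ) : ℝ)
        = 4 * (2 * (n : ℝ) + 1) ^ 2 := by
      simp only [Fintype.card_prod, Fintype.card_fin, Fintype.card_bool]
      push_cast; ring
    have hden : ((Fintype.card (PI n) + Fintype.card (PI n) +
        Fintype.card ({i : Fin d // 4 ≤ i.val} × Bool) +
        Fintype.card (PW n) * Fintype.card (PW n) : ℕ) : ℝ)
        = 8 * (n : ℝ) + 8 + 2 * (Fintype.card {i : Fin d // 4 ≤ i.val} : ℝ)
          + 4 * (2 * n + 1) ^ 2 := by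
      simp only [Fintype.card_prod, Fintype.card_fin, Fintype.card_bool]
      push_cast; ring
    rw [hnum, hden]
    apply div_le_div_of_nonneg_left (by positivity) (by positivity)
    linarith
  · apply bounded_of_coords (((n : ℝ) + 1) ^ 2)
    rintro x ⟨h1, h2, h3⟩ i
    obtain ⟨b1, b2⟩ := polygon_bound n _ _ x h1
    obtain ⟨b3, b4⟩ := polygon_bound n _ _ x h2
    have hn : (1 : ℝ) ≤ ((n : ℝ) + 1) ^ 2 := by
      have : (0 : ℝ) ≤ n := by positivity
      nlinarith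
    by_cases h4 : 4 ≤ i.val
    · exact (iv_bound i x (fun s => h3 (⟨i, h4⟩, s))).trans hn
    · have hcases : i = c0 ∨ i = c1 ∨ i = c2 ∨ i = c3 := by
        have : i.val = 0 ∨ i.val = 1 ∨ i.val = 2 ∨ i.val = 3 := by omega
        rcases this with h | h | h | h
        · exact Or.inl (Fin.ext h)
        · exact Or.inr (Or.inl (Fin.ext h))
        · exact Or.inr (Or.inr (Or.inl (Fin.ext h)))
        · exact Or.inr (Or.inr (Or.inr (Fin.ext h)))
      rcases hcases with rfl | rfl | rfl | rfl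
      · exact b1
      · exact b2
      · exact b3
      · exact b4
  · intro w1 w2
    refine ⟨pt (sg w1.2 * (((w1.1 : ℕ) : ℝ) - n))
      (sg w1.2 * (((n : ℝ) + 1) ^ 2 - (((w1.1 : ℕ) : ℝ) - n) ^ 2 - 1/8))
      (sg w2.2 * (((w2.1 : ℕ) : ℝ) - n))
      (sg w2.2 * (((n : ℝ) + 1) ^ 2 - (((w2.1 : ℕ) : ℝ) - n) ^ 2 - 1/8)),
      ?_, ?_, ?_, ?_, ?_, ?_, ?_⟩
    · intro i
      exact pf_point n _ _ w1 _ (by simp [co_apply, pt_apply, c0])
        (by simp [co_apply, pt_apply, c1]) i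
    · intro i
      exact pf_point n _ _ w2 _ (by simp [co_apply, pt_apply, c2])
        (by simp [co_apply, pt_apply, c3]) i
    · rintro ⟨⟨i, hi⟩, s⟩
      rw [iv_apply, pt_apply]
      have e0 : i.val ≠ 0 := by omega
      have e1 : i.val ≠ 1 := by omega
      have e2 : i.val ≠ 2 := by omega
      have e3 : i.val ≠ 3 := by omega
      simp [e0, e1, e2, e3]
    · exact pg_point_self n _ _ w1 _ (by simp [co_apply, pt_apply, c0])
        (by simp [co_apply, pt_apply, c1])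
    · exact pg_point_self n _ _ w2 _ (by simp [co_apply, pt_apply, c2])
        (by simp [co_apply, pt_apply, c3])
    · intro w hw
      exact pg_point_other n _ _ w1 w hw _ (by simp [co_apply, pt_apply, c0])
        (by simp [co_apply, pt_apply, c1])
    · intro w hw
      exact pg_point_other n _ _ w2 w hw _ (by simp [co_apply, pt_apply, c2])
        (by simp [co_apply, pt_apply, c3])

end examples

/-- `L_3 = 2/3` and `L_d = 1` for all `d ≥ 4`, where `L_d` is the supremum of the quotients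
`min |K| / |P|` over all centrally symmetric convex polytopes `P` in `ℝ^d`. -/
theorem result (d : ℕ) (hd : 3 ≤ d) : IsLUB (quotients d) (if d = 3 then 2/3 else 1) := by
  by_cases h3 : d = 3
  · subst h3
    rw [if_pos rfl]
    refine ⟨fun r hr => quotient_le_three r hr, ?_⟩
    intro u hu
    by_contra hlt
    push Not at hlt
    have hpos : 0 < 8 - 12 * u := by linarith
    obtain ⟨n, hn⟩ := exists_nat_gt ((10 * u - 4) / (8 - 12 * u))
    obtain ⟨r, hr, hle⟩ := example_three n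
    have h1 : (8 * (n : ℝ) + 4) / (12 * n + 10) ≤ u := hle.trans (hu hr)
    rw [div_le_iff₀ (by positivity)] at h1
    rw [div_lt_iff₀ hpos] at hn
    linarith
  · rw [if_neg h3]
    have hd4 : 4 ≤ d := by omega
    refine ⟨fun r hr => quotient_le_one r hr, ?_⟩
    intro u hu
    by_contra hlt
    push Not at hlt
    have hpos : 0 < 16 * (1 - u) := by linarith
    obtain ⟨n, hn⟩ := exists_nat_gt (max 1 ((16 + 2 * d) / (16 * (1 - u))))
    have hn1 : (1 : ℝ) < n := (le_max_left _ _).trans_lt hn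
    have hn2 : (16 + 2 * (d : ℝ)) / (16 * (1 - u)) < n := (le_max_right _ _).trans_lt hn
    obtain ⟨r, hr, hle⟩ := example_four hd4 n
    have h1 := hle.trans (hu hr)
    have hu0 : 0 ≤ u := le_trans (by positivity) h1
    rw [div_le_iff₀ (by positivity)] at h1
    rw [div_lt_iff₀ hpos] at hn2
    have hdpos : (0 : ℝ) ≤ d := by positivity
    have h2 : (1 - u) * (4 * (2 * (n : ℝ) + 1) ^ 2) ≤ 8 * n + 8 + 2 * d := by
      have : u * (8 * (n : ℝ) + 8 + 2 * d) ≤ 1 * (8 * (n : ℝ) + 8 + 2 * d) :=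
        mul_le_mul_of_nonneg_right hlt.le (by positivity)
      nlinarith
    have h3' : (1 - u) * (16 * (n : ℝ) ^ 2) ≤ 8 * n + 8 + 2 * d := by
      have : (1 - u) * (16 * (n : ℝ) ^ 2) ≤ (1 - u) * (4 * (2 * (n : ℝ) + 1) ^ 2) := by
        apply mul_le_mul_of_nonneg_left _ (by linarith)
        nlinarith
      linarith
    have h4 : 8 * (n : ℝ) + 8 + 2 * d ≤ (16 + 2 * d) * n := by nlinarith
    nlinarith

end Pool.Agent.Results.MP_688354_co.FacetRepresentation
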